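import Pool.Agent.K1H79.Q3.StmB
import Pool.Agent.K1H79.QR.Ev

set_option autoImplicit false

/-! Counting inequality with multiplicities (piece Q3-17). -/

namespace Pool.Agent.K1H61.Q3

open NumberField Finset Pool.Agent.TH847.LS Pool.Agent.K1H79.Q3 NumberField.InfinitePlace
open scoped Classical nonZeroDivisors

section

variable {L : Type} [Field L] [NumberField L]

/-- upper bounds at all places give lower bounds at all places -/
lemma lower {n : ℕ} (hn : Module.finrank ℚ L = n) {x y : L} (hx : x ≠ 0) (hy : y ≠ 0) {A ρ : ℝ}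
    (hA : 1 ≤ A) (hρ : 0 < ρ) (h : ∀ w : InfinitePlace L, w y ≤ A * ρ * w x)
    (hN : |((Algebra.norm ℚ y : ℚ) : ℝ)| = ρ ^ n * |((Algebra.norm ℚ x : ℚ) : ℝ)|) (w : InfinitePlace L) :
    w x ≤ A ^ n * ρ⁻¹ * w y := by
  by_contra hcon
  push Not at hcon
  have hA0 : 0 < A := by linarith
  have hwx : ∀ v : InfinitePlace L, 0 < v x := fun v => v.pos_iff.2 hx
  have hwy : ∀ v : InfinitePlace L, 0 < v y := fun v => v.pos_iff.2 hy
  have hAn : 0 < A ^ n := by positivity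
  have h1 : w y < ρ / A ^ n * w x := by
    rw [div_mul_eq_mul_div, lt_div_iff₀ hAn]
    have : A ^ n * ρ⁻¹ * w y * ρ < w x * ρ := mul_lt_mul_of_pos_right hcon hρ
    rw [mul_right_comm, mul_assoc (A ^ n) ρ⁻¹ ρ, inv_mul_cancel₀ hρ.ne'] at this
    linarith
  have hny := prod_eq_abs_norm (K := L) y
  have hnx := prod_eq_abs_norm (K := L) x
  rw [← Finset.mul_prod_erase _ _ (Finset.mem_univ w)] at hny hnx
  have hcast : ∀ z : L, ((|Algebra.norm ℚ z| : ℚ) : ℝ) = |((Algebra.norm ℚ z : ℚ) : ℝ)| := by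
    intro z; push_cast; rfl
  rw [hcast] at hny hnx
  rw [← hny, ← hnx] at hN
  set m := mult w with hm
  have hmpos : 1 ≤ m := by
    rw [hm]; exact mult_pos
  have hsum : m + ∑ v ∈ Finset.univ.erase w, mult v = n := by
    rw [← hn, ← sum_mult_eq (K := L), ← Finset.add_sum_erase _ _ (Finset.mem_univ w)]
  have h2 : ∏ v ∈ Finset.univ.erase w, v y ^ mult v
      ≤ (A * ρ) ^ (∑ v ∈ Finset.univ.erase w, mult v) * ∏ v ∈ Finset.univ.erase w, v x ^ mult v := by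
    rw [← Finset.prod_pow_eq_pow_sum, ← Finset.prod_mul_distrib]
    apply Finset.prod_le_prod
    · intro v _
      exact pow_nonneg (hwy v).le _
    · intro v _
      rw [← mul_pow]
      exact pow_le_pow_left₀ (hwy v).le (h v) _
  have h3 : w y ^ m < (ρ / A ^ n * w x) ^ m := pow_lt_pow_left₀ h1 (hwy w).le (by omega)
  set k := ∑ v ∈ Finset.univ.erase w, mult v with hk
  set X := ∏ v ∈ Finset.univ.erase w, v x ^ mult v with hX
  have hXpos : 0 < X := Finset.prod_pos fun v _ => pow_pos (hwx v) _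
  have h4 : w y ^ m * ∏ v ∈ Finset.univ.erase w, v y ^ mult v
      < (ρ / A ^ n * w x) ^ m * ((A * ρ) ^ k * X) := by
    apply mul_lt_mul h3 h2
    · exact Finset.prod_pos fun v _ => pow_pos (hwy v) _
    · have := hwx w
      positivity
  have h5 : (ρ / A ^ n * w x) ^ m * ((A * ρ) ^ k * X) ≤ ρ ^ n * (w x ^ m * X) := by
    have h6 : (ρ / A ^ n * w x) ^ m * ((A * ρ) ^ k * X)
        = (ρ ^ n * (w x ^ m * X)) * (A ^ k / A ^ (n * m)) := by
      rw [← hsum, div_mul_eq_mul_div, div_pow, mul_pow, mul_pow, ← pow_mul, pow_add ρ]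
      field_simp
    rw [h6]
    have h7 : A ^ k / A ^ (n * m) ≤ 1 := by
      rw [div_le_one (by positivity)]
      apply pow_le_pow_right₀ hA
      nlinarith
    have h8 : 0 ≤ ρ ^ n * (w x ^ m * X) := by
      have := hwx w
      positivity
    nlinarith
  rw [hN] at h4
  linarith

/-- the relation of the counting inequality -/
def R0 (n : ℕ) (𝔞 𝔟 : Ideal (𝓞 L)) : Prop :=
  ∃ x y : 𝓞 L, x ≠ 0 ∧ y ≠ 0 ∧ Ideal.span {x} * 𝔞 ^ 3 = Ideal.span {y} * 𝔟 ^ 3 ∧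
    ∀ w : InfinitePlace L, w (y : L) ≤ (150 : ℝ) ^ 3 *
      ((Ideal.absNorm 𝔞 : ℝ) / Ideal.absNorm 𝔟) ^ (((3 : ℕ) : ℝ) / n) * w (x : L)

lemma rel_of {n : ℕ} (hn : Module.finrank ℚ L = n) (hn1 : 1 ≤ n) {𝔞 𝔟 : Ideal (𝓞 L)}
    (h : R0 n 𝔞 𝔟) : Rel ((150 : ℝ) ^ (3 * n)) L 𝔞 𝔟 := by
  obtain ⟨x, y, hx, hy, h1, h2⟩ := h
  refine ⟨x, y, hx, hy, h1, fun w => (h2 w).trans ?_⟩
  rw [hn]
  push_cast
  apply mul_le_mul_of_nonneg_right _ (apply_nonneg w _)
  apply mul_le_mul_of_nonneg_right _ (by positivity)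
  exact pow_le_pow_right₀ (by norm_num) (by omega)

lemma rel_symm_of {n : ℕ} (hn : Module.finrank ℚ L = n) (hn1 : 1 ≤ n) {𝔞 𝔟 : Ideal (𝓞 L)}
    (ha : 𝔞 ≠ ⊥) (hb : 𝔟 ≠ ⊥) (h : R0 n 𝔞 𝔟) : Rel ((150 : ℝ) ^ (3 * n)) L 𝔟 𝔞 := by
  obtain ⟨x, y, hx, hy, h1, h2⟩ := h
  have hNa : (0 : ℝ) < Ideal.absNorm 𝔞 := by exact_mod_cast absNorm_pos ha
  have hNb : (0 : ℝ) < Ideal.absNorm 𝔟 := by exact_mod_cast absNorm_pos hb
  have hr : (0 : ℝ) < (Ideal.absNorm 𝔞 : ℝ) / Ideal.absNorm 𝔟 := div_pos hNa hNb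
  have hnr : (0 : ℝ) < n := by exact_mod_cast hn1
  have hxL : (x : L) ≠ 0 := by exact_mod_cast hx
  have hyL : (y : L) ≠ 0 := by exact_mod_cast hy
  refine ⟨y, x, hy, hx, h1.symm, fun w => ?_⟩
  have e5 : ∀ z : 𝓞 L, |((Algebra.norm ℚ (z : L) : ℚ) : ℝ)| = (((Algebra.norm ℤ z).natAbs : ℕ) : ℝ) := by
    intro z
    rw [← Algebra.coe_norm_int, Nat.cast_natAbs]
    push_cast
    rfl
  have e3 : |((Algebra.norm ℚ (x : L) : ℚ) : ℝ)| * (Ideal.absNorm 𝔞 : ℝ) ^ 3 =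
      |((Algebra.norm ℚ (y : L) : ℚ) : ℝ)| * (Ideal.absNorm 𝔟 : ℝ) ^ 3 := by
    have e4 := congrArg Ideal.absNorm h1
    rw [map_mul, map_mul, map_pow, map_pow, Ideal.absNorm_span_singleton,
      Ideal.absNorm_span_singleton] at e4
    rw [e5, e5]
    exact_mod_cast e4
  have e6 : (((Ideal.absNorm 𝔞 : ℝ) / Ideal.absNorm 𝔟) ^ (((3 : ℕ) : ℝ) / n)) ^ n
      = ((Ideal.absNorm 𝔞 : ℝ) / Ideal.absNorm 𝔟) ^ 3 := by
    rw [← Real.rpow_natCast, ← Real.rpow_mul hr.le, div_mul_cancel₀ _ hnr.ne', Real.rpow_natCast]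
  have hN : |((Algebra.norm ℚ (y : L) : ℚ) : ℝ)|
      = (((Ideal.absNorm 𝔞 : ℝ) / Ideal.absNorm 𝔟) ^ (((3 : ℕ) : ℝ) / n)) ^ n *
        |((Algebra.norm ℚ (x : L) : ℚ) : ℝ)| := by
    rw [e6, div_pow, div_mul_eq_mul_div, eq_div_iff (by positivity), ← e3]
    ring
  have h3 := lower hn hxL hyL (A := (150 : ℝ) ^ 3) (by norm_num) (Real.rpow_pos_of_pos hr _) h2 hN w
  rw [← Real.inv_rpow hr.le, inv_div, ← pow_mul] at h3
  rw [hn]
  push_cast at h3
  exact h3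

lemma rel_refl {n : ℕ} {𝔞 : Ideal (𝓞 L)} (ha : 𝔞 ≠ ⊥) : Rel ((150 : ℝ) ^ (3 * n)) L 𝔞 𝔞 := by
  have hNa : (0 : ℝ) < Ideal.absNorm 𝔞 := by exact_mod_cast absNorm_pos ha
  refine ⟨1, 1, one_ne_zero, one_ne_zero, rfl, fun w => ?_⟩
  rw [div_self hNa.ne', Real.one_rpow, mul_one]
  have h1 : (1 : ℝ) ≤ 150 ^ (3 * n) := one_le_pow₀ (by norm_num)
  have h2 : 0 ≤ w ((1 : 𝓞 L) : L) := apply_nonneg w _
  nlinarith

end

theorem t_EVT : S_EVT := by
  intro n hn1
  refine ⟨(150 : ℝ) ^ (3 * n), by positivity, ?_⟩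
  intro L _ _ hn S T hS hT N hN
  -- a maximal subset without relations
  set Pr : Finset (Ideal (𝓞 L)) → Prop := fun S' => ∀ a ∈ S', ∀ b ∈ S', a ≠ b → ¬ R0 n a b with hPr
  have hne : (S.powerset.filter Pr).Nonempty := ⟨∅, by simp [hPr]⟩
  obtain ⟨S', hS', hmax⟩ := Finset.exists_max_image (S.powerset.filter Pr) Finset.card hne
  rw [Finset.mem_filter, Finset.mem_powerset] at hS'
  obtain ⟨hsub, hind⟩ := hS'
  have hcov : ∀ c ∈ S, ∃ a ∈ S', Rel ((150 : ℝ) ^ (3 * n)) L a c := by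
    intro c hc
    by_cases hcS : c ∈ S'
    · exact ⟨c, hcS, rel_refl (hS c hc)⟩
    · by_contra hcon
      push Not at hcon
      have h1 : Pr (insert c S') := by
        intro a ha b hb hab hR
        rw [Finset.mem_insert] at ha hb
        rcases ha with rfl | ha
        · rcases hb with rfl | hb
          · exact hab rfl
          · exact hcon b hb (rel_symm_of hn hn1 (hS _ hc) (hS b (hsub hb)) hR)
        · rcases hb with rfl | hb
          · exact hcon a ha (rel_of hn hn1 hR)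
          · exact hind a ha b hb hab hR
      have h2 := hmax (insert c S') (Finset.mem_filter.2 ⟨Finset.mem_powerset.2
        (Finset.insert_subset hc hsub), h1⟩)
      rw [Finset.card_insert_of_notMem hcS] at h2
      omega
  have hcard : S.card ≤ S'.card * T := by
    have h1 : S ⊆ S'.biUnion fun a => S.filter fun b => Rel ((150 : ℝ) ^ (3 * n)) L a b := by
      intro c hc
      obtain ⟨a, ha, hac⟩ := hcov c hc
      rw [Finset.mem_biUnion]
      exact ⟨a, ha, Finset.mem_filter.2 ⟨hc, hac⟩⟩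
    refine (Finset.card_le_card h1).trans ?_
    exact Finset.card_biUnion_le_card_mul _ _ _ fun a ha => hT a (hsub ha)
  have key := Pool.Agent.K1H79.QR.ev_g (K := L) hn (l := 3) (by norm_num) N hN (ι := {a // a ∈ S'})
    (fun a => ⟨a.1, mem_nonZeroDivisors_of_ne_zero (hS a.1 (hsub a.2))⟩)
    (fun p q hpq x y hx hy h1 h2 => hind p.1 p.2 q.1 q.2 (fun h => hpq (Subtype.ext h))
      ⟨x, y, hx, hy, h1, fun w => h2 w⟩)
  rw [Fintype.card_coe] at key
  have hT0 : (0 : ℝ) ≤ T := Nat.cast_nonneg T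
  have hc0 : (0 : ℝ) ≤ (Nat.card {c : ClassGroup (𝓞 L) // c ^ 3 = 1} : ℝ) := Nat.cast_nonneg _
  calc (S.card : ℝ) * (Nat.card {c : ClassGroup (𝓞 L) // c ^ 3 = 1} : ℝ)
      ≤ ((S'.card * T : ℕ) : ℝ) * (Nat.card {c : ClassGroup (𝓞 L) // c ^ 3 = 1} : ℝ) :=
        mul_le_mul_of_nonneg_right (by exact_mod_cast hcard) hc0
    _ = T * ((S'.card : ℝ) * (Nat.card {c : ClassGroup (𝓞 L) // c ^ 3 = 1} : ℝ)) := by
        push_cast; ring
    _ ≤ _ := mul_le_mul_of_nonneg_left key hT0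

/-- the class number and the number of ideals -/
theorem t_CLN : S_CLN := by
  intro L _ _ hn N hN
  have hex : ∀ c : ClassGroup (𝓞 L), ∃ I : (Ideal (𝓞 L))⁰, ClassGroup.mk0 I = c ∧
      (I : Ideal (𝓞 L)) ∈ FI L N := by
    intro c
    obtain ⟨I, h1, h2⟩ := exists_ideal_in_class_of_norm_le c
    refine ⟨I, h1, ?_⟩
    rw [mem_FI]
    refine ⟨?_, nonZeroDivisors.coe_ne_zero I⟩
    have hpi : (4 / Real.pi) ^ nrComplexPlaces L ≤ 2 ^ 4 := by
      have h3 : 4 / Real.pi ≤ 2 := by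
        rw [div_le_iff₀ Real.pi_pos]
        linarith [Real.pi_gt_three]
      have h4 : nrComplexPlaces L ≤ 4 := by
        have := card_add_two_mul_card_eq_rank L
        omega
      calc (4 / Real.pi) ^ nrComplexPlaces L ≤ 2 ^ nrComplexPlaces L :=
            pow_le_pow_left₀ (by positivity) h3 _
        _ ≤ 2 ^ 4 := pow_le_pow_right₀ (by norm_num) h4
    have hf : ((Module.finrank ℚ L).factorial : ℝ) / (Module.finrank ℚ L : ℝ) ^ (Module.finrank ℚ L) ≤ 1 := by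
      rw [hn]
      norm_num [Nat.factorial]
    have h5 : (Ideal.absNorm (I : Ideal (𝓞 L)) : ℝ) < N := by
      refine lt_of_le_of_lt (h2.trans ?_) hN
      have h6 : 0 ≤ √|(discr L : ℝ)| := Real.sqrt_nonneg _
      apply mul_le_mul hpi _ (by positivity) (by positivity)
      nlinarith
    exact_mod_cast h5.le
  choose I hI1 hI2 using hex
  have hinj : Function.Injective fun c => (⟨(I c : Ideal (𝓞 L)), hI2 c⟩ : {J // J ∈ FI L N}) := by
    intro c c' h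
    have h1 : (I c : Ideal (𝓞 L)) = I c' := (Subtype.mk.injEq _ _ _ _).mp h
    have h2 : I c = I c' := Subtype.ext h1
    rw [← hI1 c, ← hI1 c', h2]
  have := Nat.card_le_card_of_injective _ hinj
  rwa [Nat.card_eq_fintype_card (α := {J // J ∈ FI L N}), Fintype.card_coe] at this

end Pool.Agent.K1H61.Q3
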